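import Pool.Agent.EVF.StmtsS

/-!
# Nodes modulo a prime number
-/

namespace Pool.Agent.EVF.H68

open MvPolynomial Matrix

lemma ev_int {k : ℕ} {Ω : Type} [CommRing Ω] [inst : Algebra ℤ Ω] (t : Fin k → ℤ)
    (G : MvPolynomial (Fin 2) (MvPolynomial (Fin k) ℤ)) (z : Fin 2 → Ω) :
    ev G (fun l => ((t l : ℤ) : Ω)) z = aeval z (MvPolynomial.map (eval t) G) := by
  have h1 : (aeval z (MvPolynomial.map (eval t) G) : Ω) =
      eval₂ (Int.castRingHom Ω) z (MvPolynomial.map (eval t) G) := by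
    rw [← RingHom.ext_int (algebraMap ℤ Ω) (Int.castRingHom Ω)]
    rfl
  rw [h1, eval₂_map]
  unfold ev
  congr 1
  apply MvPolynomial.ringHom_ext
  · intro a
    simp
  · intro i
    simp

lemma F_spec {k r : ℕ} (M : FMat k r) (t : Fin k → ℤ) :
    F (spec M t) = MvPolynomial.map (eval t) M.det :=
  (RingHom.map_det (MvPolynomial.map (eval t)) M).symm

lemma adj_spec {k r : ℕ} (M : FMat k r) (t : Fin k → ℤ) :
    (spec M t).adjugate = M.adjugate.map (MvPolynomial.map (eval t)) :=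
  (RingHom.map_adjugate (MvPolynomial.map (eval t)) M).symm

lemma quad_spec {k r : ℕ} (M : FMat k r) (q : FVec k r) (t : Fin k → ℤ) :
    specv q t ⬝ᵥ ((spec M t).adjugate *ᵥ specv q t) =
      MvPolynomial.map (eval t) (q ⬝ᵥ (M.adjugate *ᵥ q)) := by
  rw [adj_spec]
  simp only [dotProduct, mulVec, specv, Matrix.map_apply, map_sum, map_mul]

/-- Row NOP. -/
theorem nop : NopStmt := by
  intro k r s M q t p hp z hp2 hz hq
  obtain ⟨h1, h2, h3, h4, h5⟩ := hz
  refine ⟨hp2, hp.out, z, ?_, ?_, ?_, ?_, specv q t, hq, ?_⟩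
  · rw [F_spec, ← ev_int]
    exact h1
  · rw [F_spec, pderiv_map, ← ev_int]
    exact h2
  · rw [F_spec, pderiv_map, ← ev_int]
    exact h3
  · rw [F_spec]
    simp only [pderiv_map]
    rw [← map_mul, ← map_pow, ← map_sub, ← ev_int]
    exact h4
  · rw [quad_spec, ← ev_int]
    exact h5

end Pool.Agent.EVF.H68
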