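import Pool.Agent.Helper68_EVF.NOP

/-!
# Reducedness at integral parameters
-/

namespace Pool.Agent.EVF.H68

open MvPolynomial Matrix

/-- Row RDI. -/
theorem rdi : RdiStmt := by
  intro k r s M t
  have h : ∀ x y : ℂ, aeval ![x, y] (F (spec M t)) =
      ev M.det (fun l => ((t l : ℤ) : ℂ)) ![x, y] := by
    intro x y
    rw [F_spec, ← ev_int]
  unfold Reduced RedAt
  simp only [h]

end Pool.Agent.EVF.H68
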