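import Pool.Agent.EVF.StmtsS

/-!
# Node primes in a family over the projective line
-/

namespace Pool.Agent.EVF.H68

open MvPolynomial Matrix

/-- Row SPB. -/
theorem spb (hS : SpnStmt) (hN : NopStmt) (hC : SclStmt) (hP : PrjStmt) : SpbStmt := by
  intro r s W n M φ hW hM hn hhom hirr hφ
  obtain ⟨t₀, z₀, q, ht₀, hφ₀, hnode, hq, hfin⟩ := hφ
  obtain ⟨S, iS, iD, τ, K₁, hK₁, hdiv, hcx, hmod⟩ := hP n φ hn hhom hirr
  obtain ⟨j, lam, hj, hlam, hτ⟩ := hcx t₀ ht₀ hφ₀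
  have hW0 : 0 < W := hW
  obtain ⟨μ, hμ⟩ := IsAlgClosed.exists_pow_nat_eq (lam⁻¹) hW0
  have hμ0 : μ ≠ 0 := by
    rintro rfl
    rw [zero_pow hW0.ne'] at hμ
    exact inv_ne_zero hlam hμ.symm
  have h1 := hC r s W M q hM hq ℂ μ hμ0 t₀ z₀ hnode
  have h2 : (fun l => μ ^ W * t₀ l) = fun l => j (τ l) := by
    funext l
    rw [hμ, hτ l, ← mul_assoc, inv_mul_cancel₀ hlam, one_mul]
  rw [h2] at h1
  obtain ⟨d, hd0, hd⟩ := hS 2 r M q S ℂ j hj τ _ h1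
  obtain ⟨d', N, hN0, hdN⟩ := hdiv d hd0
  refine ⟨K₁ * N.natAbs, mul_ne_zero hK₁ (Int.natAbs_ne_zero.mpr hN0), hfin.subset ?_⟩
  rintro t ⟨hcop, p, hp, hp2, hpφ, hpK, hnot⟩
  refine ⟨hcop, fun hHol => hnot ?_⟩
  have : Fact p.Prime := ⟨hp⟩
  have hpK₁ : ¬ p ∣ K₁ := fun h => hpK (Dvd.dvd.mul_right h _)
  have hpN : ¬ (p : ℤ) ∣ N := fun h => hpK (Dvd.dvd.mul_left (Int.natCast_dvd.mp h) _)
  obtain ⟨ε, lam', hlam', ht⟩ := hmod p t hpK₁ hcop hpφ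
  have hεd : ε d ≠ 0 := by
    intro h0
    have h3 := congrArg ε hdN
    rw [map_mul, h0, zero_mul, map_intCast] at h3
    exact hpN ((CharP.intCast_eq_zero_iff (AlgebraicClosure (ZMod p)) p N).mp h3.symm)
  obtain ⟨y, hy⟩ := hd (AlgebraicClosure (ZMod p)) ε hεd
  obtain ⟨ν, hν⟩ := IsAlgClosed.exists_pow_nat_eq lam' hW0
  have hν0 : ν ≠ 0 := by
    rintro rfl
    rw [zero_pow hW0.ne'] at hν
    exact hlam' hν.symm
  have h4 := hC r s W M q hM hq (AlgebraicClosure (ZMod p)) ν hν0 _ y hy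
  have h5 : (fun l => ν ^ W * ε (τ l)) = fun l => ((t l : ℤ) : AlgebraicClosure (ZMod p)) := by
    funext l
    rw [hν, ht l]
  rw [h5] at h4
  exact hN 2 r s M q t p _ hp2 h4 hHol

end Pool.Agent.EVF.H68
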