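import Pool.Agent.EVF.StmtsS

/-!
# Spreading of nodes
-/

namespace Pool.Agent.EVF.H68

open MvPolynomial Matrix

lemma ev_map {k : ℕ} {S Ω : Type} [CommRing S] [CommRing Ω] (h : S →+* Ω) (τ : Fin k → S)
    (G : MvPolynomial (Fin 2) (MvPolynomial (Fin k) ℤ)) (z : Fin 2 → Ω) :
    eval₂ h z (MvPolynomial.map (aeval τ : MvPolynomial (Fin k) ℤ →ₐ[ℤ] S).toRingHom G) =
      ev G (fun l => h (τ l)) z := by
  rw [eval₂_map]
  unfold ev
  congr 1
  apply MvPolynomial.ringHom_ext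
  · intro a
    simp
  · intro i
    simp

/-- Row SPN. -/
theorem spn (hS : SpzStmt) : SpnStmt := by
  intro k r M q S _ _ L _ j hj τ z hz
  obtain ⟨h1, h2, h3, h4, h5⟩ := hz
  let m := MvPolynomial.map (σ := Fin 2) (aeval τ : MvPolynomial (Fin k) ℤ →ₐ[ℤ] S).toRingHom
  obtain ⟨d, hd0, hd⟩ := hS S L j hj
    {m M.det, m (pderiv 0 M.det), m (pderiv 1 M.det)}
    (m (pderiv 0 (pderiv 0 M.det) * pderiv 1 (pderiv 1 M.det) -
      pderiv 0 (pderiv 1 M.det) ^ 2) * m (q ⬝ᵥ (M.adjugate *ᵥ q))) z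
    (by
      intro g hg
      rcases hg with rfl | rfl | rfl
      · exact (ev_map j τ _ z).trans h1
      · exact (ev_map j τ _ z).trans h2
      · exact (ev_map j τ _ z).trans h3)
    (by
      rw [eval₂_mul]
      exact mul_ne_zero (by rw [ev_map]; exact h4) (by rw [ev_map]; exact h5))
  refine ⟨d, hd0, fun Ω _ _ ε hε => ?_⟩
  obtain ⟨y, hy1, hy2⟩ := hd Ω ε hε
  rw [eval₂_mul] at hy2
  refine ⟨y, ?_, ?_, ?_, ?_, ?_⟩
  · rw [← ev_map]
    exact hy1 _ (by simp [m])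
  · rw [← ev_map]
    exact hy1 _ (by simp [m])
  · rw [← ev_map]
    exact hy1 _ (by simp [m])
  · rw [← ev_map]
    exact left_ne_zero_of_mul hy2
  · rw [← ev_map]
    exact right_ne_zero_of_mul hy2

end Pool.Agent.EVF.H68
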