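import Pool.Agent.EVF.StmtsS

/-!
# Few values with a small radical
-/

namespace Pool.Agent.EVF.H68

open MvPolynomial

lemma box_finite (H : ℕ) : {t : Fin 2 → ℤ | ∀ l, |t l| ≤ (H : ℤ)}.Finite := by
  have : {t : Fin 2 → ℤ | ∀ l, |t l| ≤ (H : ℤ)} =
      Set.pi Set.univ fun _ => Set.Icc (-(H : ℤ)) H := by
    ext t
    simp only [Set.mem_ofPred_eq, Set.mem_pi, Set.mem_univ, true_imp_iff, Set.mem_Icc, abs_le]
  rw [this]
  exact Set.Finite.pi fun _ => Set.finite_Icc (-(H : ℤ)) (H : ℤ)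

/-- Row SUN. -/
theorem sun (hS : SuwStmt) : SunStmt := by
  intro n φ hφ hzz K ε hK hε
  classical
  obtain ⟨C, hC, h1⟩ := hS n φ hφ hzz ε hε
  refine ⟨C * (K : ℝ) ^ ε, by positivity, fun H R hH hR => ?_⟩
  have hH1 : (1 : ℝ) ≤ H := by exact_mod_cast hH
  have hK1 : (1 : ℝ) ≤ K := by exact_mod_cast hK
  let A : ℕ → Set (Fin 2 → ℤ) := fun w => {t | (∀ l, |t l| ≤ (H : ℤ)) ∧ eval t φ ≠ 0 ∧
    ∀ p : ℕ, p.Prime → (p : ℤ) ∣ eval t φ → p ∣ w}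
  have hAfin : ∀ w, (A w).Finite := fun w => (box_finite H).subset fun t ht => ht.1
  have hsub : {t : Fin 2 → ℤ | (∀ l, |t l| ≤ (H : ℤ)) ∧ eval t φ ≠ 0 ∧
      ((Helper5Frey.partRad K (eval t φ).natAbs : ℕ) : ℝ) ≤ R} ⊆
      ⋃ ρ ∈ Finset.Icc 1 ⌊R⌋₊, A (K * ρ) := by
    rintro t ⟨ht, hne, hR'⟩
    simp only [Set.mem_iUnion]
    refine ⟨Helper5Frey.partRad K (eval t φ).natAbs, ?_, ht, hne, ?_⟩
    · rw [Finset.mem_Icc]
      refine ⟨?_, Nat.le_floor hR'⟩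
      unfold Helper5Frey.partRad
      apply Nat.one_le_iff_ne_zero.mpr
      rw [Finset.prod_ne_zero_iff]
      intro p hp
      exact (Nat.prime_of_mem_primeFactors (Finset.mem_filter.mp hp).1).ne_zero
    · intro p hp hpd
      by_cases hpK : p ∣ K
      · exact Dvd.dvd.mul_right hpK _
      · apply Dvd.dvd.mul_left
        unfold Helper5Frey.partRad
        apply Finset.dvd_prod_of_mem (fun p => p)
        rw [Finset.mem_filter, Nat.mem_primeFactors]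
        exact ⟨⟨hp, Int.natCast_dvd.mp hpd, Int.natAbs_ne_zero.mpr hne⟩, hpK⟩
  have hfin : (⋃ ρ ∈ Finset.Icc 1 ⌊R⌋₊, A (K * ρ)).Finite :=
    Set.Finite.biUnion (Finset.finite_toSet _) fun ρ _ => hAfin _
  have hcard : ((⋃ ρ ∈ Finset.Icc 1 ⌊R⌋₊, A (K * ρ)).ncard : ℝ) ≤
      ∑ ρ ∈ Finset.Icc 1 ⌊R⌋₊, ((A (K * ρ)).ncard : ℝ) := by
    have : (⋃ ρ ∈ Finset.Icc 1 ⌊R⌋₊, A (K * ρ)).ncard ≤
        ∑ ρ ∈ Finset.Icc 1 ⌊R⌋₊, (A (K * ρ)).ncard := by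
      induction (Finset.Icc 1 ⌊R⌋₊) using Finset.induction_on with
      | empty => simp
      | insert a s ha ih =>
        rw [Finset.set_biUnion_insert, Finset.sum_insert ha]
        exact (Set.ncard_union_le _ _).trans (Nat.add_le_add_left ih _)
    exact_mod_cast this
  have hterm : ∀ ρ ∈ Finset.Icc 1 ⌊R⌋₊, ((A (K * ρ)).ncard : ℝ) ≤
      C * ((K : ℝ) ^ ε * (R * H) ^ ε) := by
    intro ρ hρ
    rw [Finset.mem_Icc] at hρ
    have hρR : (ρ : ℝ) ≤ R := (Nat.cast_le.mpr hρ.2).trans (Nat.floor_le (by linarith))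
    have hρ1 : (1 : ℝ) ≤ ρ := by exact_mod_cast hρ.1
    have h2 := h1 H (K * ρ) hH (Nat.mul_pos (by omega) (by omega))
    refine h2.trans ?_
    rw [← Real.mul_rpow (by positivity) (by positivity)]
    apply mul_le_mul_of_nonneg_left _ hC.le
    apply Real.rpow_le_rpow (by positivity) _ hε.le
    push_cast
    calc (K : ℝ) * ρ * H = K * (ρ * H) := by ring
      _ ≤ K * (R * H) := by gcongr
  calc _ ≤ ((⋃ ρ ∈ Finset.Icc 1 ⌊R⌋₊, A (K * ρ)).ncard : ℝ) := by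
        exact_mod_cast Set.ncard_le_ncard hsub hfin
    _ ≤ ∑ ρ ∈ Finset.Icc 1 ⌊R⌋₊, ((A (K * ρ)).ncard : ℝ) := hcard
    _ ≤ ∑ _ρ ∈ Finset.Icc 1 ⌊R⌋₊, C * ((K : ℝ) ^ ε * (R * H) ^ ε) := Finset.sum_le_sum hterm
    _ = (⌊R⌋₊ : ℝ) * (C * ((K : ℝ) ^ ε * (R * H) ^ ε)) := by
        rw [Finset.sum_const, Nat.card_Icc, nsmul_eq_mul]
        simp
    _ ≤ R * (C * ((K : ℝ) ^ ε * (R * H) ^ ε)) := by
        have h3 : 0 ≤ C * ((K : ℝ) ^ ε * (R * H) ^ ε) := by positivity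
        exact mul_le_mul_of_nonneg_right (Nat.floor_le (by linarith)) h3
    _ = C * (K : ℝ) ^ ε * R * (R * H) ^ ε := by ring

end Pool.Agent.EVF.H68
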