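import Pool.Agent.EVF.StmtsS
import Pool.Agent.Helper23_FT.Units
import Pool.Agent.Helper60_FT.F

/-!
# Values of a binary form with prescribed prime divisors
-/

namespace Pool.Agent.EVF.H68

open MvPolynomial NumberField Module

/-- value of a form over the integers in a commutative ring -/
noncomputable def E {R : Type*} [CommRing R] (x : Fin 2 → R) (φ : MvPolynomial (Fin 2) ℤ) : R :=
  eval₂ (Int.castRingHom R) x φ

lemma aeval_E {R : Type*} [CommRing R] [Algebra ℤ R] (x : Fin 2 → R)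
    (φ : MvPolynomial (Fin 2) ℤ) : aeval x φ = E x φ := by
  unfold E
  rw [← RingHom.ext_int (algebraMap ℤ R) (Int.castRingHom R)]
  rfl

lemma eval_E (x : Fin 2 → ℤ) (φ : MvPolynomial (Fin 2) ℤ) : eval x φ = E x φ := by
  unfold E
  have : (Int.castRingHom ℤ) = RingHom.id ℤ := RingHom.ext_int _ _
  rw [this]
  rfl

lemma E_smul {R : Type*} [CommRing R] {n : ℕ} {φ : MvPolynomial (Fin 2) ℤ}
    (hφ : φ.IsHomogeneous n) (c : R) (x : Fin 2 → R) :
    E (fun l => c * x l) φ = c ^ n * E x φ := by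
  unfold E
  rw [eval₂_eq', eval₂_eq', Finset.mul_sum]
  refine Finset.sum_congr rfl fun d hd => ?_
  have h1 : d 0 + d 1 = n := by
    have h2 := hφ (mem_support_iff.mp hd)
    rw [← h2, Finsupp.weight_apply, Finsupp.sum_fintype _ _ (fun i => by simp)]
    simp
  simp only [Fin.prod_univ_two, mul_pow]
  rw [← h1, pow_add]
  ring

lemma E_hom {R S : Type*} [CommRing R] [CommRing S] (f : R →+* S) (x : Fin 2 → R)
    (φ : MvPolynomial (Fin 2) ℤ) : f (E x φ) = E (fun l => f (x l)) φ := by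
  unfold E
  rw [eval₂_eq', eval₂_eq', map_sum]
  refine Finset.sum_congr rfl fun d _ => ?_
  simp only [map_mul, map_prod, map_pow]
  congr 1
  simp

/-- the dehomogenisation of a nonzero form is not zero -/
lemma dehom_ne_zero {n : ℕ} {φ : MvPolynomial (Fin 2) ℤ} (hφ : φ.IsHomogeneous n) (h0 : φ ≠ 0) :
    (E ![Polynomial.X, 1] φ : Polynomial ℤ) ≠ 0 := by
  intro hP
  apply h0
  have hX : (X 1 : MvPolynomial (Fin 2) ℤ) * φ = 0 := by
    apply MvPolynomial.funext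
    intro x
    rw [map_mul, map_zero, eval_X]
    by_cases hx : x 1 = 0
    · rw [hx, zero_mul]
    · have h1 : ((x 1 : ℤ) : ℚ) ≠ 0 := by exact_mod_cast hx
      have h2 : E (fun l => ((x l : ℤ) : ℚ)) φ = 0 := by
        have h3 : (fun l => ((x l : ℤ) : ℚ)) =
            fun l => ((x 1 : ℤ) : ℚ) * (![((x 0 : ℤ) : ℚ) / (x 1 : ℤ), 1] : Fin 2 → ℚ) l := by
          funext l
          fin_cases l
          · simp
            field_simp
          · simp
        rw [h3, E_smul hφ]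
        have h4 := E_hom (Polynomial.eval₂RingHom (Int.castRingHom ℚ)
          (((x 0 : ℤ) : ℚ) / (x 1 : ℤ))) ![Polynomial.X, 1] φ
        rw [hP, map_zero] at h4
        have h5 : (fun l => (Polynomial.eval₂RingHom (Int.castRingHom ℚ)
            (((x 0 : ℤ) : ℚ) / (x 1 : ℤ))) ((![Polynomial.X, 1] : Fin 2 → Polynomial ℤ) l)) =
            ![((x 0 : ℤ) : ℚ) / (x 1 : ℤ), 1] := by
          funext l
          fin_cases l <;> simp
        rw [h5] at h4
        rw [← h4, mul_zero]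
      have h6 : (eval x φ : ℤ) = 0 := by
        have h7 := E_hom (Int.castRingHom ℚ) x φ
        rw [← eval_E] at h7
        have h9 : (fun l => (Int.castRingHom ℚ) (x l)) = fun l => ((x l : ℤ) : ℚ) := rfl
        rw [h9, h2] at h7
        have h10 : (((eval x φ : ℤ)) : ℚ) = 0 := h7
        exact_mod_cast h10
      rw [h6, mul_zero]
  rcases mul_eq_zero.mp hX with h | h
  · exact absurd h (X_ne_zero 1)
  · exact h

/-- An integral representative of a zero. -/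
lemma exists_rep {n : ℕ} {φ : MvPolynomial (Fin 2) ℤ} (hφ : φ.IsHomogeneous n) (h0 : φ ≠ 0)
    (t : Fin 2 → ℂ) (ht : t ≠ 0) (hz : E t φ = 0) :
    ∃ (d : ℤ) (u v lam : ℂ), d ≠ 0 ∧ IsIntegral ℤ u ∧ IsIntegral ℤ v ∧ lam ≠ 0 ∧
      u = lam * t 0 ∧ v = lam * t 1 ∧ E ![u, v] φ = 0 ∧ (v = d ∨ u = d) := by
  by_cases h1 : t 1 = 0
  · have h2 : t 0 ≠ 0 := by
      intro h2
      apply ht
      funext l
      fin_cases l
      · exact h2
      · exact h1
    refine ⟨1, 1, 0, (t 0)⁻¹, one_ne_zero, isIntegral_one, isIntegral_zero, inv_ne_zero h2,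
      (inv_mul_cancel₀ h2).symm, by rw [h1, mul_zero], ?_, Or.inr (by simp)⟩
    have h3 : (![1, 0] : Fin 2 → ℂ) = fun l => (t 0)⁻¹ * t l := by
      funext l
      fin_cases l
      · simp [h2]
      · simp [h1]
    rw [h3, E_smul hφ, hz, mul_zero]
  · have h3 : (![t 0 / t 1, 1] : Fin 2 → ℂ) = fun l => (t 1)⁻¹ * t l := by
      funext l
      fin_cases l
      · simp
        field_simp
      · simp [h1]
    have hroot : E ![t 0 / t 1, 1] φ = 0 := by
      rw [h3, E_smul hφ, hz, mul_zero]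
    have halg : IsAlgebraic ℤ (t 0 / t 1) := by
      refine ⟨E ![Polynomial.X, 1] φ, dehom_ne_zero hφ h0, ?_⟩
      have h4 := E_hom (Polynomial.aeval (t 0 / t 1) : Polynomial ℤ →ₐ[ℤ] ℂ).toRingHom
        ![Polynomial.X, 1] φ
      have h5 : (fun l => (Polynomial.aeval (t 0 / t 1) : Polynomial ℤ →ₐ[ℤ] ℂ).toRingHom
          ((![Polynomial.X, 1] : Fin 2 → Polynomial ℤ) l)) = ![t 0 / t 1, 1] := by
        funext l
        fin_cases l <;> simp
      rw [h5, hroot] at h4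
      exact h4
    obtain ⟨d, hd0, hd⟩ := halg.exists_integral_multiple
    refine ⟨d, d • (t 0 / t 1), d, d / t 1, hd0, hd, isIntegral_algebraMap (x := d),
      div_ne_zero (by exact_mod_cast hd0) h1, ?_, ?_, ?_, Or.inl rfl⟩
    · rw [zsmul_eq_mul]
      field_simp
    · field_simp
    · have h6 : (![d • (t 0 / t 1), (d : ℂ)] : Fin 2 → ℂ) =
          fun l => (d : ℂ) * (![t 0 / t 1, 1] : Fin 2 → ℂ) l := by
        funext l
        fin_cases l <;> simp
      rw [h6, E_smul hφ, hroot, mul_zero]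

/-- divisibility of the value by the linear form -/
lemma lin_dvd {R : Type*} [CommRing R] {n : ℕ} {φ : MvPolynomial (Fin 2) ℤ}
    (hφ : φ.IsHomogeneous n) (u v : R) (hz : E ![u, v] φ = 0) (d : ℤ)
    (hd : v = d ∨ u = d) (t : Fin 2 → ℤ) :
    (v * t 0 - u * t 1) ∣ ((d ^ n * eval t φ : ℤ) : R) := by
  have hcast : ((eval t φ : ℤ) : R) = E (fun l => ((t l : ℤ) : R)) φ := by
    have h1 := E_hom (Int.castRingHom R) t φ
    rw [← eval_E] at h1
    exact h1
  rcases hd with hd | hd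
  · obtain ⟨g, hg⟩ : ∃ g : Polynomial R, ∀ x : R, g.eval x = E ![x, v * t 1] φ := by
      refine ⟨E ![Polynomial.X, Polynomial.C (v * t 1)] φ, fun x => ?_⟩
      have h1 := E_hom (Polynomial.evalRingHom x) ![Polynomial.X, Polynomial.C (v * t 1)] φ
      rw [Polynomial.coe_evalRingHom] at h1
      rw [h1]
      congr 1
      funext l
      fin_cases l <;> simp
    have h2 := Polynomial.sub_dvd_eval_sub (v * t 0) (u * t 1) g
    have h3 : g.eval (v * t 0) = ((d ^ n * eval t φ : ℤ) : R) := by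
      rw [hg, Int.cast_mul, Int.cast_pow, hcast, ← hd, ← E_smul hφ]
      congr 1
      funext l
      fin_cases l <;> simp
    have h4 : g.eval (u * t 1) = 0 := by
      rw [hg]
      have : (![u * t 1, v * t 1] : Fin 2 → R) = fun l => (t 1 : R) * (![u, v] : Fin 2 → R) l := by
        funext l
        fin_cases l <;> simp [mul_comm]
      rw [this, E_smul hφ, hz, mul_zero]
    rw [h3, h4, sub_zero] at h2
    exact h2
  · obtain ⟨g, hg⟩ : ∃ g : Polynomial R, ∀ x : R, g.eval x = E ![u * t 0, x] φ := by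
      refine ⟨E ![Polynomial.C (u * t 0), Polynomial.X] φ, fun x => ?_⟩
      have h1 := E_hom (Polynomial.evalRingHom x) ![Polynomial.C (u * t 0), Polynomial.X] φ
      rw [Polynomial.coe_evalRingHom] at h1
      rw [h1]
      congr 1
      funext l
      fin_cases l <;> simp
    have h2 := Polynomial.sub_dvd_eval_sub (u * t 1) (v * t 0) g
    have h3 : g.eval (u * t 1) = ((d ^ n * eval t φ : ℤ) : R) := by
      rw [hg, Int.cast_mul, Int.cast_pow, hcast, ← hd, ← E_smul hφ]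
      congr 1
      funext l
      fin_cases l <;> simp
    have h4 : g.eval (v * t 0) = 0 := by
      rw [hg]
      have : (![u * t 0, v * t 0] : Fin 2 → R) = fun l => (t 0 : R) * (![u, v] : Fin 2 → R) l := by
        funext l
        fin_cases l <;> simp [mul_comm]
      rw [this, E_smul hφ, hz, mul_zero]
    rw [h3, h4, sub_zero] at h2
    rw [← neg_dvd, neg_sub]
    exact h2

open Pool.Agent.FT (SU su_bound su_finite)
open Pool.Agent.Helper79FreyD (small)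

lemma exists_lift (L : IntermediateField ℚ ℂ) (z : ℂ) (hz : z ∈ L) (hi : IsIntegral ℤ z) :
    ∃ x : 𝓞 L, ((x : L) : ℂ) = z := by
  have h1 : IsIntegral ℤ (⟨z, hz⟩ : L) := by
    rw [← isIntegral_algebraMap_iff (B := ℂ) (algebraMap L ℂ).injective]
    exact hi
  exact ⟨⟨⟨z, hz⟩, h1⟩, rfl⟩

lemma mem_of_dvd {R : Type*} [CommRing R] {n : ℕ} (P : Ideal R) (hP : P.IsPrime) (d m : ℤ)
    (hm : m ≠ 0) (w D : ℕ) (hw : ∀ p : ℕ, p.Prime → (p : ℤ) ∣ m → p ∣ w) (hdD : d ∣ D) (x : R)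
    (hx : x ∣ ((d ^ n * m : ℤ) : R)) (hxP : x ∈ P) : ((D * w : ℕ) : R) ∈ P := by
  have h1 : ((d ^ n * m : ℤ) : R) ∈ P := by
    obtain ⟨c, hc⟩ := hx
    rw [hc]
    exact P.mul_mem_right _ hxP
  rw [Int.cast_mul, Int.cast_pow] at h1
  rw [Nat.cast_mul]
  rcases hP.mem_or_mem h1 with h2 | h2
  · have h3 := hP.mem_of_pow_mem _ h2
    apply P.mul_mem_right
    obtain ⟨c, hc⟩ := hdD
    have h4 : ((D : ℕ) : R) = (d : R) * (c : R) := by
      rw [← Int.cast_mul, ← hc, Int.cast_natCast]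
    rw [h4]
    exact P.mul_mem_right _ h3
  · have h3 : ((m.natAbs : ℕ) : R) ∈ P := by
      rcases Int.natAbs_eq m with h4 | h4
      · have h5 : ((m.natAbs : ℕ) : R) = (m : R) := by
          conv_rhs => rw [h4]
          rw [Int.cast_natCast]
        rw [h5]
        exact h2
      · have h5 : ((m.natAbs : ℕ) : R) = -(m : R) := by
          conv_rhs => rw [h4]
          rw [Int.cast_neg, Int.cast_natCast, neg_neg]
        rw [h5]
        exact P.neg_mem h2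
    obtain ⟨p, hp, hpm, hpP⟩ := Pool.Agent.FT.H60.exists_prime_mem P hP m.natAbs
      (Int.natAbs_ne_zero.mpr hm) h3
    obtain ⟨c, hc⟩ := hw p hp (Int.natCast_dvd.mpr hpm)
    apply P.mul_mem_left
    rw [hc, Nat.cast_mul]
    exact P.mul_mem_right _ hpP

/-- Row SUW. -/
theorem suw : SuwStmt := by
  intro n φ hφ hzz ε hε
  obtain ⟨t₀, t₁, hz0, hz1, hne⟩ := hzz
  rw [aeval_E] at hz0 hz1
  by_cases h0 : φ = 0
  · refine ⟨1, one_pos, fun H w hH hw => ?_⟩
    have : {t : Fin 2 → ℤ | (∀ l, |t l| ≤ (H : ℤ)) ∧ eval t φ ≠ 0 ∧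
        ∀ p : ℕ, p.Prime → (p : ℤ) ∣ eval t φ → p ∣ w} = ∅ := by
      ext t
      simp [h0]
    rw [this, Set.ncard_empty, Nat.cast_zero]
    positivity
  have ht0 : t₀ ≠ 0 := by
    rintro rfl
    simp at hne
  have ht1 : t₁ ≠ 0 := by
    rintro rfl
    simp at hne
  obtain ⟨d₀, u₀, v₀, a₀, hd0, hu0, hv0, ha0, hut0, hvt0, hE0, hor0⟩ :=
    exists_rep hφ h0 t₀ ht0 hz0
  obtain ⟨d₁, u₁, v₁, a₁, hd1, hu1, hv1, ha1, hut1, hvt1, hE1, hor1⟩ :=
    exists_rep hφ h0 t₁ ht1 hz1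
  have hdet : u₀ * v₁ ≠ v₀ * u₁ := by
    rw [hut0, hvt0, hut1, hvt1]
    intro h
    apply hne
    have h2 : a₀ * a₁ ≠ 0 := mul_ne_zero ha0 ha1
    apply mul_left_cancel₀ h2
    linear_combination h
  let L : IntermediateField ℚ ℂ := IntermediateField.adjoin ℚ {u₀, v₀, u₁, v₁}
  have hfin : FiniteDimensional ℚ L := by
    apply IntermediateField.finiteDimensional_adjoin
    intro x hx
    have : IsIntegral ℤ x := by
      rcases hx with rfl | rfl | rfl | rfl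
      · exact hu0
      · exact hv0
      · exact hu1
      · exact hv1
    exact this.tower_top
  have hNF : NumberField L := { to_charZero := inferInstance, to_finiteDimensional := hfin }
  obtain ⟨U₀, hU0⟩ := exists_lift L u₀ (IntermediateField.subset_adjoin _ _ (by simp)) hu0
  obtain ⟨V₀, hV0⟩ := exists_lift L v₀ (IntermediateField.subset_adjoin _ _ (by simp)) hv0
  obtain ⟨U₁, hU1⟩ := exists_lift L u₁ (IntermediateField.subset_adjoin _ _ (by simp)) hu1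
  obtain ⟨V₁, hV1⟩ := exists_lift L v₁ (IntermediateField.subset_adjoin _ _ (by simp)) hv1
  let ι : 𝓞 L →+* ℂ := (algebraMap L ℂ).comp (algebraMap (𝓞 L) L)
  have hι : Function.Injective ι :=
    (algebraMap L ℂ).injective.comp RingOfIntegers.coe_injective
  have hιU0 : ι U₀ = u₀ := hU0
  have hιV0 : ι V₀ = v₀ := hV0
  have hιU1 : ι U₁ = u₁ := hU1
  have hιV1 : ι V₁ = v₁ := hV1
  have hor : ∀ (U V : 𝓞 L) (u v : ℂ) (d : ℤ), ι U = u → ι V = v → (v = d ∨ u = d) →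
      (V = d ∨ U = d) := by
    intro U V u v d hU hV h
    rcases h with h | h
    · left
      apply hι
      rw [hV, h, map_intCast]
    · right
      apply hι
      rw [hU, h, map_intCast]
  have hEE : ∀ (U V : 𝓞 L) (u v : ℂ), ι U = u → ι V = v → E ![u, v] φ = 0 →
      E ![U, V] φ = 0 := by
    intro U V u v hU hV h
    apply hι
    rw [E_hom, map_zero, ← h]
    congr 1
    funext l
    fin_cases l
    · exact hU
    · exact hV
  have hor0' := hor U₀ V₀ u₀ v₀ d₀ hιU0 hιV0 hor0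
  have hor1' := hor U₁ V₁ u₁ v₁ d₁ hιU1 hιV1 hor1
  have hE0' := hEE U₀ V₀ u₀ v₀ hιU0 hιV0 hE0
  have hE1' := hEE U₁ V₁ u₁ v₁ hιU1 hιV1 hE1
  obtain ⟨C, hC, hsu⟩ := su_bound (finrank ℚ L) (ε / 2) (by linarith)
  set D : ℕ := (d₀ * d₁).natAbs with hD
  have hD0 : D ≠ 0 := Int.natAbs_ne_zero.mpr (mul_ne_zero hd0 hd1)
  have hD1 : 1 ≤ D := Nat.one_le_iff_ne_zero.mpr hD0
  set A : ℝ := 1 + ∑ σ : L →+* ℂ, (‖σ (U₀ : L)‖ + ‖σ (V₀ : L)‖ + ‖σ (U₁ : L)‖ + ‖σ (V₁ : L)‖)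
    with hA
  have hA1 : 1 ≤ A := by
    rw [hA]
    have : 0 ≤ ∑ σ : L →+* ℂ,
        (‖σ (U₀ : L)‖ + ‖σ (V₀ : L)‖ + ‖σ (U₁ : L)‖ + ‖σ (V₁ : L)‖) :=
      Finset.sum_nonneg fun σ _ => by positivity
    linarith
  have hAσ : ∀ σ : L →+* ℂ, ‖σ (U₀ : L)‖ + ‖σ (V₀ : L)‖ + ‖σ (U₁ : L)‖ + ‖σ (V₁ : L)‖ ≤ A := by
    intro σ
    have h1 := Finset.single_le_sum (f := fun σ : L →+* ℂ =>
      ‖σ (U₀ : L)‖ + ‖σ (V₀ : L)‖ + ‖σ (U₁ : L)‖ + ‖σ (V₁ : L)‖)
      (fun σ _ => by positivity) (Finset.mem_univ σ)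
    linarith
  refine ⟨C ^ 2 * ((D : ℝ) * A) ^ ε, by positivity, fun H w hH hw => ?_⟩
  have hH1 : (1 : ℝ) ≤ H := by exact_mod_cast hH
  have hw1 : (1 : ℝ) ≤ w := by exact_mod_cast hw
  have hB1 : (1 : ℝ) ≤ A * H := by nlinarith
  set T : Set (Fin 2 → ℤ) := {t : Fin 2 → ℤ | (∀ l, |t l| ≤ (H : ℤ)) ∧ eval t φ ≠ 0 ∧
    ∀ p : ℕ, p.Prime → (p : ℤ) ∣ eval t φ → p ∣ w} with hT
  let S : Set (𝓞 L) := SU L (D * w) (A * H)
  have hSfin : S.Finite := su_finite _ _ (by linarith)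
  have hmem : ∀ (U V : 𝓞 L) (d : ℤ), (V = d ∨ U = d) → E ![U, V] φ = 0 → d ∣ (D : ℤ) → d ≠ 0 →
      (∀ σ : L →+* ℂ, ‖σ (U : L)‖ + ‖σ (V : L)‖ ≤ A) → ∀ t ∈ T,
      V * (t 0 : 𝓞 L) - U * (t 1 : 𝓞 L) ∈ S := by
    intro U V d h1 h2 h3 h4 h5 t ht
    obtain ⟨htH, htne, htp⟩ := ht
    have hdvd := lin_dvd hφ U V h2 d h1 t
    refine ⟨?_, ?_, ?_⟩
    · intro hx0
      rw [hx0, zero_dvd_iff] at hdvd
      have h6 : d ^ n * eval t φ = 0 := by exact_mod_cast hdvd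
      exact mul_ne_zero (pow_ne_zero _ h4) htne h6
    · intro σ
      have hc : ∀ l, ‖((t l : ℤ) : ℂ)‖ ≤ H := by
        intro l
        rw [Complex.norm_intCast]
        exact_mod_cast htH l
      have h6 : σ ((V * (t 0 : 𝓞 L) - U * (t 1 : 𝓞 L) : 𝓞 L) : L) =
          σ (V : L) * ((t 0 : ℤ) : ℂ) - σ (U : L) * ((t 1 : ℤ) : ℂ) := by
        have h7 : ((V * (t 0 : 𝓞 L) - U * (t 1 : 𝓞 L) : 𝓞 L) : L) =
            (V : L) * ((t 0 : ℤ) : L) - (U : L) * ((t 1 : ℤ) : L) := by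
          simp
        rw [h7]
        simp
      rw [h6]
      calc ‖σ (V : L) * ((t 0 : ℤ) : ℂ) - σ (U : L) * ((t 1 : ℤ) : ℂ)‖
          ≤ ‖σ (V : L) * ((t 0 : ℤ) : ℂ)‖ + ‖σ (U : L) * ((t 1 : ℤ) : ℂ)‖ := norm_sub_le _ _
        _ = ‖σ (V : L)‖ * ‖((t 0 : ℤ) : ℂ)‖ + ‖σ (U : L)‖ * ‖((t 1 : ℤ) : ℂ)‖ := by
            rw [norm_mul, norm_mul]
        _ ≤ ‖σ (V : L)‖ * H + ‖σ (U : L)‖ * H := by
            gcongr
            · exact hc 0
            · exact hc 1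
        _ = (‖σ (U : L)‖ + ‖σ (V : L)‖) * H := by ring
        _ ≤ A * H := by
            gcongr
            exact h5 σ
    · intro P hP hxP
      exact mem_of_dvd P hP d (eval t φ) htne w D htp h3 _ hdvd hxP
  have hdvd0 : d₀ ∣ (D : ℤ) := by
    rw [hD, Int.dvd_natAbs]
    exact Dvd.intro _ rfl
  have hdvd1 : d₁ ∣ (D : ℤ) := by
    rw [hD, Int.dvd_natAbs]
    exact Dvd.intro_left _ rfl
  have hb0 : ∀ σ : L →+* ℂ, ‖σ (U₀ : L)‖ + ‖σ (V₀ : L)‖ ≤ A := fun σ => by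
    have := hAσ σ
    have h1 := norm_nonneg (σ (U₁ : L))
    have h2 := norm_nonneg (σ (V₁ : L))
    linarith
  have hb1 : ∀ σ : L →+* ℂ, ‖σ (U₁ : L)‖ + ‖σ (V₁ : L)‖ ≤ A := fun σ => by
    have := hAσ σ
    have h1 := norm_nonneg (σ (U₀ : L))
    have h2 := norm_nonneg (σ (V₀ : L))
    linarith
  have hcard : T.ncard ≤ (S ×ˢ S).ncard := by
    refine Set.ncard_le_ncard_of_injOn
      (fun t => (V₀ * (t 0 : 𝓞 L) - U₀ * (t 1 : 𝓞 L), V₁ * (t 0 : 𝓞 L) - U₁ * (t 1 : 𝓞 L)))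
      ?_ ?_ (hSfin.prod hSfin)
    · intro t ht
      exact ⟨hmem U₀ V₀ d₀ hor0' hE0' hdvd0 hd0 hb0 t ht,
        hmem U₁ V₁ d₁ hor1' hE1' hdvd1 hd1 hb1 t ht⟩
    · intro t _ t' _ htt
      have e1 := congrArg ι (congrArg Prod.fst htt)
      have e2 := congrArg ι (congrArg Prod.snd htt)
      simp only [map_sub, map_mul, map_intCast, hιU0, hιV0, hιU1, hιV1] at e1 e2
      have hdet' : u₀ * v₁ - v₀ * u₁ ≠ 0 := sub_ne_zero.mpr hdet
      have f1 : ((t 0 : ℤ) : ℂ) = ((t' 0 : ℤ) : ℂ) := by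
        apply mul_left_cancel₀ hdet'
        linear_combination u₀ * e2 - u₁ * e1
      have f2 : ((t 1 : ℤ) : ℂ) = ((t' 1 : ℤ) : ℂ) := by
        apply mul_left_cancel₀ hdet'
        linear_combination v₀ * e2 - v₁ * e1
      funext l
      fin_cases l
      · exact_mod_cast f1
      · exact_mod_cast f2
  have hS : (S.ncard : ℝ) ≤ C * (((D * w : ℕ) : ℝ) * (A * H)) ^ (ε / 2) :=
    hsu L le_rfl (D * w) (Nat.mul_pos (by omega) (by omega)) (A * H) hB1
  have hx0 : (0 : ℝ) ≤ ((D * w : ℕ) : ℝ) * (A * H) := by positivity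
  calc (T.ncard : ℝ) ≤ ((S ×ˢ S).ncard : ℝ) := by exact_mod_cast hcard
    _ = (S.ncard : ℝ) ^ 2 := by
        rw [Set.ncard_prod]
        push_cast
        ring
    _ ≤ (C * (((D * w : ℕ) : ℝ) * (A * H)) ^ (ε / 2)) ^ 2 := by gcongr
    _ = C ^ 2 * (((D * w : ℕ) : ℝ) * (A * H)) ^ ε := by
        rw [mul_pow, ← Real.rpow_natCast ((((D * w : ℕ) : ℝ) * (A * H)) ^ (ε / 2)) 2,
          ← Real.rpow_mul hx0]
        congr 2
        push_cast
        ring
    _ = C ^ 2 * ((D : ℝ) * A) ^ ε * ((w : ℝ) * H) ^ ε := by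
        rw [mul_assoc, ← Real.mul_rpow (by positivity) (by positivity)]
        congr 2
        push_cast
        ring

end Pool.Agent.EVF.H68
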