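import Pool.Agent.EVF.StmtsG

set_option autoImplicit false

/-!
# Squad EVF, row DGP: degree of `adjugate A * q`
-/

namespace Pool.Agent.EVF.H68

open MvPolynomial Matrix
open Pool.Agent.EVF

/-- twice the weighted degree is at most `n` -/
def Dg (u v : ℕ) (n : ℤ) (G : MvPolynomial (Fin 2) ℂ) : Prop :=
  ∀ e ∈ G.support, ((2 * (u * e 0 + v * e 1) : ℕ) : ℤ) ≤ n

theorem Dg.mul {u v : ℕ} {n m : ℤ} {G H : MvPolynomial (Fin 2) ℂ} (hG : Dg u v n G)
    (hH : Dg u v m H) : Dg u v (n + m) (G * H) := by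
  classical
  intro e he
  obtain ⟨a, ha, b, hb, rfl⟩ := Finset.mem_add.1 (support_mul G H he)
  have h1 := hG a ha
  have h2 := hH b hb
  rw [Finsupp.add_apply, Finsupp.add_apply]
  push_cast at h1 h2 ⊢
  linarith [mul_add (u : ℤ) (a 0) (b 0), mul_add (v : ℤ) (a 1) (b 1)]

theorem Dg.add {u v : ℕ} {n : ℤ} {G H : MvPolynomial (Fin 2) ℂ} (hG : Dg u v n G)
    (hH : Dg u v n H) : Dg u v n (G + H) := by
  classical
  intro e he
  rcases Finset.mem_union.1 (support_add he) with h | h
  · exact hG e h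
  · exact hH e h

theorem Dg.zero {u v : ℕ} {n : ℤ} : Dg u v n (0 : MvPolynomial (Fin 2) ℂ) := by
  intro e he
  rw [support_zero] at he
  exact absurd he (Finset.notMem_empty e)

theorem Dg.one {u v : ℕ} : Dg u v 0 (1 : MvPolynomial (Fin 2) ℂ) := by
  intro e he
  rw [support_one, Finset.mem_singleton] at he
  subst he
  simp

theorem Dg.neg {u v : ℕ} {n : ℤ} {G : MvPolynomial (Fin 2) ℂ} (hG : Dg u v n G) :
    Dg u v n (-G) := by
  intro e he
  rw [support_neg] at he
  exact hG e he

theorem Dg.sum {u v : ℕ} {n : ℤ} {ι : Type} (s : Finset ι) (G : ι → MvPolynomial (Fin 2) ℂ)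
    (hG : ∀ i ∈ s, Dg u v n (G i)) : Dg u v n (∑ i ∈ s, G i) := by
  classical
  induction s using Finset.induction_on with
  | empty => rw [Finset.sum_empty]; exact Dg.zero
  | insert a s ha ih =>
    rw [Finset.sum_insert ha]
    exact (hG a (Finset.mem_insert_self a s)).add
      (ih fun i hi => hG i (Finset.mem_insert_of_mem hi))

theorem Dg.prod {u v : ℕ} {ι : Type} (s : Finset ι) (n : ι → ℤ)
    (G : ι → MvPolynomial (Fin 2) ℂ) (hG : ∀ i ∈ s, Dg u v (n i) (G i)) :
    Dg u v (∑ i ∈ s, n i) (∏ i ∈ s, G i) := by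
  classical
  induction s using Finset.induction_on with
  | empty => rw [Finset.sum_empty, Finset.prod_empty]; exact Dg.one
  | insert a s ha ih =>
    rw [Finset.sum_insert ha, Finset.prod_insert ha]
    exact (hG a (Finset.mem_insert_self a s)).mul
      (ih fun i hi => hG i (Finset.mem_insert_of_mem hi))

/-- the degree of a determinant, rows and columns with their own degrees -/
theorem Dg.det {u v r : ℕ} (M : CMat r) (R S : Fin r → ℤ) (h : ∀ k l, Dg u v (R k + S l) (M k l)) :
    Dg u v (∑ k, R k + ∑ l, S l) M.det := by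
  rw [Matrix.det_apply]
  refine Dg.sum _ _ fun σ _ => ?_
  have h1 : Dg u v (∑ k, (R (σ k) + S k)) (∏ k, M (σ k) k) :=
    Dg.prod _ _ _ fun k _ => h (σ k) k
  rw [Finset.sum_add_distrib, Equiv.sum_comp σ R] at h1
  rcases Int.units_eq_one_or (Equiv.Perm.sign σ) with h2 | h2
  · rw [h2, one_smul]; exact h1
  · rw [h2, Units.neg_smul, one_smul]; exact h1.neg

/-- the degree of the adjugate -/
theorem Dg.adj {r : ℕ} {s : Shape r} {A : CMat r} (hA : Shaped s A) (i j : Fin r) :
    Dg s.u s.v (2 * (s.deg : ℤ) - s.D i - s.D j) (A.adjugate i j) := by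
  classical
  rw [Matrix.adjugate_apply]
  have h := Dg.det (u := s.u) (v := s.v) (A.updateRow j (Pi.single i 1))
    (fun k => if k = j then -(s.D i : ℤ) else s.D k) (fun l => (s.D l : ℤ)) (by
      intro k l
      by_cases hk : k = j
      · subst hk
        rw [Matrix.updateRow_self, if_pos rfl]
        by_cases hl : l = i
        · subst hl
          rw [Pi.single_eq_same, neg_add_cancel]
          exact Dg.one
        · rw [Pi.single_eq_of_ne hl]
          exact Dg.zero
      · rw [Matrix.updateRow_ne hk, if_neg hk]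
        intro e he
        exact_mod_cast hA.deg k l e he)
  have e1 : (∑ k, (if k = j then -(s.D i : ℤ) else s.D k)) = (s.deg : ℤ) - s.D j - s.D i := by
    have h2 : (s.deg : ℤ) = ∑ k, (s.D k : ℤ) := by
      unfold Shape.deg
      push_cast
      rfl
    rw [h2, ← Finset.add_sum_erase Finset.univ
      (fun k => if k = j then -(s.D i : ℤ) else s.D k) (Finset.mem_univ j), if_pos rfl,
      ← Finset.add_sum_erase Finset.univ (fun k => (s.D k : ℤ)) (Finset.mem_univ j)]
    have h3 : ∑ k ∈ Finset.univ.erase j, (if k = j then -(s.D i : ℤ) else s.D k) =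
        ∑ k ∈ Finset.univ.erase j, (s.D k : ℤ) :=
      Finset.sum_congr rfl fun k hk => if_neg (Finset.ne_of_mem_erase hk)
    rw [h3]
    ring
  have e2 : ∑ l, (s.D l : ℤ) = (s.deg : ℤ) := by
    unfold Shape.deg
    push_cast
    rfl
  rw [e1, e2] at h
  have e3 : (s.deg : ℤ) - s.D j - s.D i + s.deg = 2 * (s.deg : ℤ) - s.D i - s.D j := by ring
  rwa [e3] at h

/-- ROW DGP. -/
theorem dgp : DgpStmt := by
  intro r s A q hs hA hq i e he
  have hsum : Dg s.u s.v (2 * (s.deg : ℤ) - 1) ((A.adjugate *ᵥ q) i) := by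
    change Dg s.u s.v _ (∑ j, A.adjugate i j * q j)
    refine Dg.sum _ _ fun j _ => ?_
    have h1 := Dg.adj hA i j
    have h2 : Dg s.u s.v ((s.deg : ℤ) + s.D j - 2 * s.u - 2 * s.v - 1) (q j) := by
      intro a ha
      have h3 := hq j a ha
      zify at h3
      push_cast
      linarith
    have h4 := h1.mul h2
    have hsm := hs.small i
    obtain ⟨c, hc⟩ := hs.parity i
    have h5 : s.deg ≤ s.D i + 2 * (s.u + s.v) := by omega
    zify at h5
    intro a ha
    have h6 := h4 a ha
    linarith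
  have h1 := hsum e he
  have h2 : s.v * e 1 < s.deg := by
    have h3 : (2 * (s.u * e 0 + s.v * e 1) : ℕ) < 2 * s.deg := by
      zify
      push_cast at h1
      linarith
    have h4 : 0 ≤ s.u * e 0 := Nat.zero_le _
    omega
  rw [Nat.lt_div_iff_mul_lt' hs.dvd, mul_comm]
  rw [mul_comm]
  exact h2

end Pool.Agent.EVF.H68
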