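import Pool.Agent.EVF.StmtsS

/-!
# Node primes in a family with several parameters
-/

namespace Pool.Agent.EVF.H68

open MvPolynomial Matrix

/-- Row SPF. -/
theorem spf (hS : SpnStmt) (hN : NopStmt) : SpfStmt := by
  intro k r s M φ hφ
  obtain ⟨t₀, z₀, q, ψ, hgen, hnode, hψ0, hψ⟩ := hφ
  let I : Ideal (MvPolynomial (Fin k) ℤ) := Ideal.span {φ}
  let S := MvPolynomial (Fin k) ℤ ⧸ I
  have hI : I = RingHom.ker (aeval t₀ : MvPolynomial (Fin k) ℤ →ₐ[ℤ] ℂ).toRingHom := by
    ext P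
    rw [Ideal.mem_span_singleton, ← hgen P]
    rfl
  have hprime : I.IsPrime := by
    rw [hI]
    exact RingHom.ker_isPrime _
  have hdom : IsDomain S := (Ideal.Quotient.isDomain_iff_prime I).mpr hprime
  let j : S →+* ℂ := Ideal.Quotient.lift I (aeval t₀ : MvPolynomial (Fin k) ℤ →ₐ[ℤ] ℂ).toRingHom
    (fun a ha => by
      rw [hI] at ha
      exact ha)
  have hj : Function.Injective j := by
    rw [injective_iff_map_eq_zero]
    intro a ha
    obtain ⟨P, rfl⟩ := Ideal.Quotient.mk_surjective a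
    rw [Ideal.Quotient.lift_mk] at ha
    rw [Ideal.Quotient.eq_zero_iff_mem, hI]
    exact ha
  let τ : Fin k → S := fun l => Ideal.Quotient.mk I (X l)
  have hjτ : (fun l => j (τ l)) = t₀ := by
    funext l
    show j (Ideal.Quotient.mk I (X l)) = t₀ l
    rw [Ideal.Quotient.lift_mk]
    simp
  obtain ⟨d, hd0, hd⟩ := hS k r M q S ℂ j hj τ z₀ (by rw [hjτ]; exact hnode)
  obtain ⟨χ, hχ⟩ := Ideal.Quotient.mk_surjective d
  refine ⟨χ, ψ, ?_, hψ0, ?_⟩
  · intro hdvd
    apply hd0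
    rw [← hχ, Ideal.Quotient.eq_zero_iff_mem, Ideal.mem_span_singleton]
    exact hdvd
  · intro t ht p hp hp2 hpφ hpχ
    have : Fact p.Prime := ⟨hp⟩
    let Ω := AlgebraicClosure (ZMod p)
    let e : MvPolynomial (Fin k) ℤ →+* Ω := (Int.castRingHom Ω).comp (eval t)
    have hint : ∀ n : ℤ, Int.castRingHom Ω n = 0 ↔ (p : ℤ) ∣ n := fun n => by
      have := CharP.intCast_eq_zero_iff Ω p n
      simpa using this
    let ε : S →+* Ω := Ideal.Quotient.lift I e (by
      intro a ha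
      obtain ⟨b, rfl⟩ := Ideal.mem_span_singleton.mp ha
      rw [map_mul]
      have : e φ = 0 := (hint _).mpr hpφ
      rw [this, zero_mul])
    have hεd : ε d ≠ 0 := by
      rw [← hχ]
      show ε (Ideal.Quotient.mk I χ) ≠ 0
      rw [Ideal.Quotient.lift_mk]
      intro h0
      exact hpχ ((hint _).mp h0)
    obtain ⟨y, hy⟩ := hd Ω ε hεd
    have hτ : (fun l => ε (τ l)) = fun l => ((t l : ℤ) : Ω) := by
      funext l
      show ε (Ideal.Quotient.mk I (X l)) = _
      rw [Ideal.Quotient.lift_mk]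
      simp [e]
    rw [hτ] at hy
    exact hN k r s M q t p y hp2 hy (hψ t ht)

end Pool.Agent.EVF.H68
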