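import Pool.Agent.EVF.StmtsS
import Pool.Agent.Helper5_Plane.Spread

/-!
# Spreading of common zeros
-/

namespace Pool.Agent.EVF.H68

open MvPolynomial

/-- Extension of homomorphisms along integral extensions. -/
lemma ext_hom {A C Ω : Type*} [CommRing A] [CommRing C] [Algebra A C] [Algebra.IsIntegral A C]
    (hinj : Function.Injective (algebraMap A C)) [Field Ω] [IsAlgClosed Ω] (ε : A →+* Ω) :
    ∃ ε' : C →+* Ω, ε'.comp (algebraMap A C) = ε := by
  have hker : (RingHom.ker ε).IsPrime := RingHom.ker_isPrime ε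
  obtain ⟨Q, -, hQ, hcomap⟩ := Ideal.exists_ideal_over_prime_of_isIntegral (RingHom.ker ε)
    (⊥ : Ideal C) (by
      intro x hx
      rw [Ideal.mem_comap, Ideal.mem_bot] at hx
      rw [(map_eq_zero_iff _ hinj).mp hx]
      exact zero_mem _)
  have hle : RingHom.ker ε ≤ Q.comap (algebraMap A C) := hcomap.ge
  let : Algebra (A ⧸ RingHom.ker ε) (C ⧸ Q) := (Ideal.quotientMap Q (algebraMap A C) hle).toAlgebra
  have hinj1 : Function.Injective (algebraMap (A ⧸ RingHom.ker ε) (C ⧸ Q)) :=
    Ideal.quotientMap_injective' hcomap.le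
  let : Algebra (A ⧸ RingHom.ker ε) Ω := (RingHom.kerLift ε).toAlgebra
  have hinj2 : Function.Injective (algebraMap (A ⧸ RingHom.ker ε) Ω) := RingHom.kerLift_injective ε
  have hint : Algebra.IsIntegral (A ⧸ RingHom.ker ε) (C ⧸ Q) := by
    constructor
    intro x
    obtain ⟨c, rfl⟩ := Ideal.Quotient.mk_surjective x
    obtain ⟨p, hp, h0⟩ := Algebra.IsIntegral.isIntegral (R := A) c
    refine ⟨p.map (Ideal.Quotient.mk _), hp.map _, ?_⟩
    rw [Polynomial.eval₂_map]
    have h1 : (algebraMap (A ⧸ RingHom.ker ε) (C ⧸ Q)).comp (Ideal.Quotient.mk _) =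
        (Ideal.Quotient.mk Q).comp (algebraMap A C) := by
      ext a
      rfl
    rw [h1, ← Polynomial.hom_eval₂, h0, map_zero]
  have ht1 : Module.IsTorsionFree (A ⧸ RingHom.ker ε) (C ⧸ Q) := by
    have : FaithfulSMul (A ⧸ RingHom.ker ε) (C ⧸ Q) :=
      (faithfulSMul_iff_algebraMap_injective _ _).mpr hinj1
    infer_instance
  have ht2 : Module.IsTorsionFree (A ⧸ RingHom.ker ε) Ω := by
    have : FaithfulSMul (A ⧸ RingHom.ker ε) Ω :=
      (faithfulSMul_iff_algebraMap_injective _ _).mpr hinj2
    infer_instance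
  have halg : Algebra.IsAlgebraic (A ⧸ RingHom.ker ε) (C ⧸ Q) := inferInstance
  let L : (C ⧸ Q) →ₐ[A ⧸ RingHom.ker ε] Ω := IsAlgClosed.lift
  refine ⟨L.toRingHom.comp (Ideal.Quotient.mk Q), ?_⟩
  ext a
  have h2 := L.commutes (Ideal.Quotient.mk _ a)
  exact h2

/-- A common zero over an algebraic closure spreads out. -/
theorem spread_zero {S : Type*} [CommRing S] [IsDomain S] {σ : Type*} [Finite σ]
    (K : Type*) [Field K] [Algebra S K] (hinj : Function.Injective (algebraMap S K))
    [Algebra.IsAlgebraic S K]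
    (G : Set (MvPolynomial σ S)) (D : MvPolynomial σ S) (z : σ → K)
    (hG : ∀ g ∈ G, MvPolynomial.aeval z g = 0) (hD : MvPolynomial.aeval z D ≠ 0) :
    ∃ d : S, d ≠ 0 ∧ ∀ (Ω : Type*) [Field Ω] [IsAlgClosed Ω] (ε : S →+* Ω), ε d ≠ 0 →
      ∃ y : σ → Ω, (∀ g ∈ G, MvPolynomial.eval₂ ε y g = 0) ∧ MvPolynomial.eval₂ ε y D ≠ 0 := by
  classical
  have := Fintype.ofFinite σ
  set s : K := (MvPolynomial.aeval z D)⁻¹ with hs
  obtain ⟨d, hd0, hd⟩ := Algebra.IsAlgebraic.exists_integral_multiples S
    (insert s (Finset.univ.image z))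
  refine ⟨d, hd0, ?_⟩
  intro Ω _ _ ε hε
  have hdK : algebraMap S K d ≠ 0 := by
    rw [Ne, map_eq_zero_iff _ hinj]
    exact hd0
  have hunit : IsUnit (algebraMap S K d) := isUnit_iff_ne_zero.mpr hdK
  let A := Localization.Away d
  let f : A →+* K := IsLocalization.Away.lift d hunit
  let : Algebra A K := f.toAlgebra
  have hAK : ∀ x : S, algebraMap A K (algebraMap S A x) = algebraMap S K x := fun x =>
    IsLocalization.Away.lift_eq d hunit x
  have htower : IsScalarTower S A K := IsScalarTower.of_algebraMap_eq fun x => (hAK x).symm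
  have hAinj : Function.Injective (algebraMap A K) := by
    rw [injective_iff_map_eq_zero]
    intro a ha
    obtain ⟨n, b, hb⟩ := IsLocalization.Away.surj d a
    have h1 : algebraMap A K (algebraMap S A b) = 0 := by
      rw [← hb, map_mul, ha, zero_mul]
    rw [hAK, map_eq_zero_iff _ hinj] at h1
    rw [h1, map_zero] at hb
    have hu : IsUnit (algebraMap S A d ^ n) := (IsLocalization.Away.algebraMap_isUnit d).pow n
    exact (hu.mul_left_eq_zero).mp hb
  have hint : ∀ x ∈ insert s (Finset.univ.image z), IsIntegral A x := by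
    intro x hx
    have h1 : IsIntegral A (d • x) := (hd x hx).tower_top
    have h2 : IsIntegral A (algebraMap A K (IsLocalization.Away.invSelf d)) := isIntegral_algebraMap
    have h3 := h2.mul h1
    have h4 : algebraMap A K (IsLocalization.Away.invSelf d) * (d • x) = x := by
      rw [Algebra.smul_def, ← mul_assoc, ← hAK d, ← map_mul, mul_comm (IsLocalization.Away.invSelf d),
        IsLocalization.Away.mul_invSelf, map_one, one_mul]
    rwa [h4] at h3
  let Cc := integralClosure A K
  have hCint : Algebra.IsIntegral A Cc := inferInstance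
  have hACinj : Function.Injective (algebraMap A Cc) := by
    intro a b hab
    apply hAinj
    exact congrArg (fun c : Cc => (c : K)) hab
  have hunitε : IsUnit (ε d) := isUnit_iff_ne_zero.mpr hε
  let ε₁ : A →+* Ω := IsLocalization.Away.lift d hunitε
  have hε₁ : ∀ x : S, ε₁ (algebraMap S A x) = ε x := fun x => IsLocalization.Away.lift_eq d hunitε x
  obtain ⟨ε₂, hε₂⟩ := ext_hom hACinj ε₁
  let z' : σ → Cc := fun i => ⟨z i, hint _ (Finset.mem_insert_of_mem
    (Finset.mem_image_of_mem z (Finset.mem_univ i)))⟩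
  let s' : Cc := ⟨s, hint _ (Finset.mem_insert_self _ _)⟩
  let φ : S →+* Cc := (algebraMap A Cc).comp (algebraMap S A)
  have hφ : ∀ p : MvPolynomial σ S, ((MvPolynomial.eval₂ φ z' p : Cc) : K) = MvPolynomial.aeval z p := by
    intro p
    have h1 : (algebraMap Cc K).comp φ = algebraMap S K := by
      ext x
      exact hAK x
    show algebraMap Cc K (MvPolynomial.eval₂ φ z' p) = _
    rw [MvPolynomial.hom_eval₂, h1]
    rfl
  have hε₂φ : ε₂.comp φ = ε := by
    ext x
    have := congrArg (fun h : A →+* Ω => h (algebraMap S A x)) hε₂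
    exact this.trans (hε₁ x)
  have hval : ∀ p : MvPolynomial σ S, ε₂ (MvPolynomial.eval₂ φ z' p) =
      MvPolynomial.eval₂ ε (fun i => ε₂ (z' i)) p := by
    intro p
    rw [MvPolynomial.hom_eval₂, hε₂φ]
  refine ⟨fun i => ε₂ (z' i), ?_, ?_⟩
  · intro g hg
    rw [← hval]
    have h1 : MvPolynomial.eval₂ φ z' g = 0 := by
      apply Subtype.ext
      rw [hφ, hG g hg]
      rfl
    rw [h1, map_zero]
  · rw [← hval]
    intro h0
    have h1 : MvPolynomial.eval₂ φ z' D * s' = 1 := by
      apply Subtype.ext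
      show ((MvPolynomial.eval₂ φ z' D : Cc) : K) * s = 1
      rw [hφ, hs, mul_inv_cancel₀ hD]
    have h2 := congrArg ε₂ h1
    rw [map_mul, h0, zero_mul, map_one] at h2
    exact zero_ne_one h2

/-- Row SPZ. -/
theorem spz : SpzStmt := by
  intro S _ _ L _ j hj G D z hG hD
  classical
  let K := AlgebraicClosure (FractionRing S)
  have hinj : Function.Injective (algebraMap S K) := by
    rw [IsScalarTower.algebraMap_eq S (FractionRing S) K]
    exact (algebraMap (FractionRing S) K).injective.comp (IsFractionRing.injective S _)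
  have halg : Algebra.IsAlgebraic S K :=
    (IsFractionRing.comap_isAlgebraic_iff (A := S) (K := FractionRing S) (C := K)).mpr inferInstance
  have key : ∃ y : Fin 2 → K, (∀ g ∈ G, aeval y g = 0) ∧ aeval y D ≠ 0 := by
    by_contra hno
    let ι : MvPolynomial (Fin 2) S →ₐ[S] MvPolynomial (Fin 3) S := rename (Fin.castSucc)
    let T : Set (MvPolynomial (Fin 3) S) := insert (1 - X 2 * ι D) (ι '' G)
    have hT : ¬ ∃ y : Fin 3 → K, ∀ f ∈ T, aeval y f = 0 := by
      rintro ⟨y, hy⟩
      apply hno
      refine ⟨fun i => y i.castSucc, fun g hg => ?_, ?_⟩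
      · have := hy (ι g) (Set.mem_insert_of_mem _ (Set.mem_image_of_mem _ hg))
        rw [aeval_rename] at this
        exact this
      · intro h0
        have h1 := hy _ (Set.mem_insert _ _)
        rw [map_sub, map_one, map_mul, aeval_rename] at h1
        have h2 : aeval (y ∘ Fin.castSucc) D = 0 := h0
        rw [h2, mul_zero, sub_zero] at h1
        exact one_ne_zero h1
    obtain ⟨m, hm0, hm⟩ := Helper5Plane.spread K hinj T hT
    let y : Fin 3 → L := Fin.snoc z (eval₂ j z D)⁻¹
    have h1 : j m = 0 := by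
      apply Helper5Plane.spread_apply hm j y
      intro f hf
      rcases Set.mem_insert_iff.mp hf with rfl | ⟨g, hg, rfl⟩
      · have e1 : eval₂ j y (ι D) = eval₂ j z D := by
          show eval₂ j y (rename _ D) = _
          rw [eval₂_rename]
          congr 1
          funext i
          simp [y]
        have e2 : y 2 = (eval₂ j z D)⁻¹ := by
          show (Fin.snoc z (eval₂ j z D)⁻¹ : Fin 3 → L) (Fin.last 2) = _
          exact Fin.snoc_last _ _
        rw [eval₂_sub, eval₂_one, eval₂_mul, eval₂_X, e1, e2, inv_mul_cancel₀ hD, sub_self]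
      · show eval₂ j y (rename _ g) = 0
        rw [eval₂_rename]
        rw [← hG g hg]
        congr 1
        funext i
        simp [y]
    exact hm0 ((map_eq_zero_iff _ hj).mp h1)
  obtain ⟨y, hy1, hy2⟩ := key
  exact spread_zero K hinj G D y hy1 hy2

end Pool.Agent.EVF.H68
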